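import Pool.Agent.BEN.StmtsB

/-!
# Row HLD of squad BEN: Hoelder
-/

namespace Pool.Agent.BEN.H4

open MeasureTheory
open scoped ENNReal

/-- HLD. -/
theorem hld : HldStmt := by
  intro T _ μ p q r _ _ _ h
  have : ENNReal.HolderTriple p q r := ⟨h⟩
  refine ⟨(ContinuousLinearMap.mul ℝ ℝ).holderL μ p q r, fun f g => ?_, fun f g => ?_⟩
  · rw [ContinuousLinearMap.holderL_apply_apply]
    exact (ContinuousLinearMap.mul ℝ ℝ).coeFn_holder f g
  · rw [ContinuousLinearMap.holderL_apply_apply]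
    refine ((ContinuousLinearMap.mul ℝ ℝ).norm_holder_apply_apply_le f g).trans ?_
    have h1 : ‖ContinuousLinearMap.mul ℝ ℝ‖ ≤ 1 := ContinuousLinearMap.opNorm_mul_le ℝ ℝ
    calc ‖ContinuousLinearMap.mul ℝ ℝ‖ * ‖f‖ * ‖g‖ ≤ 1 * ‖f‖ * ‖g‖ := by gcongr
      _ = ‖f‖ * ‖g‖ := by rw [one_mul]

end Pool.Agent.BEN.H4
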